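import Pool.Agent.helper51.RMX.Spec

set_option autoImplicit false

namespace Pool.Agent.RMX

open Pool.Agent.RB NumberField IsDedekindDomain Module
open scoped nonZeroDivisors Real Classical IsMulCommutative

/-- a finite group killed by an odd number has odd order -/
theorem DCX_odd0 (G : Type) [AddCommGroup G] [Finite G] (q : ℕ) (hq : Odd q) (h : ∀ x : G, q • x = 0) :
    Odd (Nat.card G) := by
  by_contra hodd
  have h2 : 2 ∣ Nat.card G := even_iff_two_dvd.1 (Nat.not_odd_iff_even.1 hodd)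
  have : Fact (Nat.Prime 2) := ⟨Nat.prime_two⟩
  obtain ⟨x, hx⟩ := exists_prime_addOrderOf_dvd_card' 2 h2
  have h3 : addOrderOf x ∣ q := addOrderOf_dvd_of_nsmul_eq_zero (h x)
  rw [hx] at h3
  exact (Nat.not_even_iff_odd.2 hq) (even_iff_two_dvd.2 h3)

theorem DCX_odd (X : Type) [AddCommGroup X] [Finite X] (q : ℕ) (hq : Odd q) (H K : AddSubgroup X) (hHK : H ≤ K)
    (h : ∀ x ∈ K, q • x ∈ H) : ∃ d : ℕ, Odd d ∧ Nat.card K = d * Nat.card H := by
  refine ⟨H.relIndex K, ?_, ?_⟩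
  · unfold AddSubgroup.relIndex AddSubgroup.index
    refine DCX_odd0 _ q hq ?_
    intro x
    obtain ⟨y, rfl⟩ := QuotientAddGroup.mk_surjective x
    rw [← QuotientAddGroup.mk_nsmul]
    rw [QuotientAddGroup.eq_zero_iff]
    exact AddSubgroup.mem_addSubgroupOf.2 (h y.1 y.2)
  · have h1 := AddSubgroup.card_mul_index (H.addSubgroupOf K)
    have h2 : Nat.card (H.addSubgroupOf K) = Nat.card H :=
      Nat.card_congr (AddSubgroup.addSubgroupOfEquivOfLe hHK).toEquiv
    rw [h2] at h1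
    rw [← h1, mul_comm]
    rfl

theorem DCX_main (B : Type) [AddCommGroup B] (M : AddSubgroup B) (N : B →+ B) (q : ℕ) (hq : Odd q)
    (hM : ∀ a ∈ M, N a ∈ M) (hN : ∀ a, N (N a) = q • N a) (hfin : M.index ≠ 0) :
    ∃ d₁ d₂ : ℕ, Odd d₁ ∧ Odd d₂ ∧
      d₁ * M.index = d₂ * (M.relIndex N.ker * M.relIndex (N - q • AddMonoidHom.id B).ker) := by
  have : Finite (B ⧸ M) := Nat.finite_of_card_ne_zero hfin
  let f : B →+ B ⧸ M := QuotientAddGroup.mk' M
  have hf : Function.Surjective f := QuotientAddGroup.mk'_surjective M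
  have hfk : f.ker = M := QuotientAddGroup.ker_mk' M
  let Nb : B ⧸ M →+ B ⧸ M := QuotientAddGroup.map M M N (fun a ha => hM a ha)
  have hNb : ∀ a, Nb (f a) = f (N a) := fun a => rfl
  have hNN : ∀ x, Nb (Nb x) = q • Nb x := by
    intro x
    obtain ⟨a, rfl⟩ := hf x
    rw [hNb, hNb, hN, map_nsmul]
  -- the kernel of N
  obtain ⟨da, hda, ea⟩ := DCX_odd (B ⧸ M) q hq (N.ker.map f) Nb.ker (by
    rintro x ⟨a, ha, rfl⟩
    rw [AddMonoidHom.mem_ker, hNb, (AddMonoidHom.mem_ker).1 ha, map_zero]) (by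
    intro x hx
    obtain ⟨a, rfl⟩ := hf x
    rw [AddMonoidHom.mem_ker, hNb] at hx
    refine ⟨q • a - N a, ?_, ?_⟩
    · show N (q • a - N a) = 0
      rw [map_sub, map_nsmul, hN, sub_self]
    · rw [map_sub, hx, sub_zero, map_nsmul])
  have hmem : ∀ a, a ∈ (N - q • AddMonoidHom.id B).ker ↔ N a = q • a := by
    intro a
    rw [AddMonoidHom.mem_ker, AddMonoidHom.sub_apply, sub_eq_zero]
    rfl
  have hmemb : ∀ x, x ∈ (Nb - q • AddMonoidHom.id (B ⧸ M)).ker ↔ Nb x = q • x := by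
    intro a
    rw [AddMonoidHom.mem_ker, AddMonoidHom.sub_apply, sub_eq_zero]
    rfl
  obtain ⟨db, hdb, eb⟩ := DCX_odd (B ⧸ M) q hq ((N - q • AddMonoidHom.id B).ker.map f)
    (Nb - q • AddMonoidHom.id (B ⧸ M)).ker (by
    rintro x ⟨a, ha, rfl⟩
    rw [hmemb, hNb, (hmem a).1 ha, map_nsmul]) (by
    intro x hx
    obtain ⟨a, rfl⟩ := hf x
    rw [hmemb, hNb] at hx
    refine ⟨N a, (hmem _).2 (hN a), hx⟩)
  obtain ⟨dc, hdc, ec⟩ := DCX_odd (B ⧸ M) q hq Nb.range (Nb - q • AddMonoidHom.id (B ⧸ M)).ker (by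
    rintro x ⟨y, rfl⟩
    rw [hmemb]
    exact hNN y) (by
    intro x hx
    rw [hmemb] at hx
    exact ⟨x, hx⟩)
  have h1 : Nat.card Nb.ker * Nat.card Nb.range = M.index := by
    have h2 := AddSubgroup.card_mul_index Nb.ker
    rw [AddSubgroup.index_ker] at h2
    exact h2
  have h3 : M.relIndex N.ker = Nat.card (N.ker.map f) := by
    rw [← AddSubgroup.relIndex_ker, hfk]
  have h4 : M.relIndex (N - q • AddMonoidHom.id B).ker = Nat.card ((N - q • AddMonoidHom.id B).ker.map f) := by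
    rw [← AddSubgroup.relIndex_ker, hfk]
  refine ⟨dc, da * db, hdc, hda.mul hdb, ?_⟩
  rw [h3, h4, ← h1, ea]
  calc dc * (da * Nat.card (N.ker.map f) * Nat.card Nb.range)
      = da * Nat.card (N.ker.map f) * (dc * Nat.card Nb.range) := by ring
    _ = da * Nat.card (N.ker.map f) * (db * Nat.card ((N - q • AddMonoidHom.id B).ker.map f)) := by
        rw [← ec, eb]
    _ = da * db * (Nat.card (N.ker.map f) * Nat.card ((N - q • AddMonoidHom.id B).ker.map f)) := by ring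

theorem DCX : DCX_stmt := by
  intro A _ A₁ L N q hq hL hA hLN hN hfin
  let N₁ : A₁ →+ A₁ := (N.comp A₁.subtype).codRestrict A₁ (fun a => hA a.1 a.2)
  have hN1 : ∀ a : A₁, ((N₁ a : A₁) : A) = N (a : A) := fun a => rfl
  obtain ⟨d₁, d₂, h1, h2, h3⟩ := DCX_main A₁ (L.addSubgroupOf A₁) N₁ q hq (by
    intro a ha
    rw [AddSubgroup.mem_addSubgroupOf] at ha ⊢
    exact hLN _ ha) (by
    intro a
    apply Subtype.ext
    rw [hN1, hN1, hN]
    rfl) hfin
  refine ⟨d₁, d₂, h1, h2, ?_⟩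
  have e1 : N₁.ker = (A₁ ⊓ N.ker).addSubgroupOf A₁ := by
    ext a
    rw [AddMonoidHom.mem_ker, AddSubgroup.mem_addSubgroupOf, AddSubgroup.mem_inf, AddMonoidHom.mem_ker]
    constructor
    · intro h
      exact ⟨a.2, by rw [← hN1, h]; rfl⟩
    · intro h
      exact Subtype.ext h.2
  have e2 : (N₁ - q • AddMonoidHom.id A₁).ker =
      (A₁ ⊓ (N - q • AddMonoidHom.id A).ker).addSubgroupOf A₁ := by
    ext a
    rw [AddMonoidHom.mem_ker, AddSubgroup.mem_addSubgroupOf, AddSubgroup.mem_inf, AddMonoidHom.mem_ker,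
      AddMonoidHom.sub_apply, AddMonoidHom.sub_apply, sub_eq_zero, sub_eq_zero]
    constructor
    · intro h
      exact ⟨a.2, congrArg Subtype.val h⟩
    · intro h
      exact Subtype.ext h.2
  rw [e1, e2, AddSubgroup.relIndex_addSubgroupOf inf_le_left, AddSubgroup.relIndex_addSubgroupOf inf_le_left] at h3
  exact h3

end Pool.Agent.RMX
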