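import Pool.Agent.helper51.RMX.Spec

set_option autoImplicit false

namespace Pool.Agent.RMX

open Pool.Agent.RB NumberField IsDedekindDomain Module
open scoped nonZeroDivisors Real Classical IsMulCommutative

theorem PRJ : PRJ_stmt := by
  intro q b j hq hq2 hjb h
  have : NeZero (q ^ b) := ⟨pow_ne_zero b hq.ne_zero⟩
  have : NeZero (q ^ j) := ⟨pow_ne_zero j hq.ne_zero⟩
  have hc : Nat.Coprime 2 (q ^ b) :=
    Nat.Coprime.pow_right b ((Nat.coprime_primes Nat.prime_two hq).2 hq2.symm)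
  obtain ⟨u, hu⟩ : ∃ u : (ZMod (q ^ b))ˣ, (u : ZMod (q ^ b)) = 2 := by
    refine ⟨ZMod.unitOfCoprime 2 hc, ?_⟩
    rw [ZMod.coe_unitOfCoprime]
    norm_num
  have h1 : Nat.card (Subgroup.zpowers u) = Nat.card (ZMod (q ^ b))ˣ := by
    rw [Nat.card_zpowers, ← orderOf_units, hu, h, Nat.card_eq_fintype_card, ZMod.card_units_eq_totient]
  have h2 : Subgroup.zpowers u = ⊤ := Subgroup.eq_top_of_card_eq _ h1
  have hdvd : q ^ j ∣ q ^ b := pow_dvd_pow q hjb
  have h3 : Subgroup.zpowers (ZMod.unitsMap hdvd u) = ⊤ := by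
    rw [eq_top_iff]
    intro y _
    obtain ⟨x, rfl⟩ := ZMod.unitsMap_surjective hdvd y
    have hx : x ∈ Subgroup.zpowers u := by
      rw [h2]
      exact Subgroup.mem_top x
    obtain ⟨k, rfl⟩ := Subgroup.mem_zpowers_iff.1 hx
    rw [map_zpow]
    exact Subgroup.zpow_mem_zpowers _ _
  have h4 : ((ZMod.unitsMap hdvd u : (ZMod (q ^ j))ˣ) : ZMod (q ^ j)) = 2 := by
    rw [ZMod.unitsMap_def, Units.coe_map]
    show (ZMod.castHom hdvd (ZMod (q ^ j))) (u : ZMod (q ^ b)) = 2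
    rw [hu, map_ofNat]
  rw [← h4, orderOf_units, ← Nat.card_zpowers, h3, Subgroup.card_top, Nat.card_eq_fintype_card,
    ZMod.card_units_eq_totient]

end Pool.Agent.RMX
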