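import Pool.Agent.helper51.RMX.Spec

set_option autoImplicit false

namespace Pool.Agent.RMX

open Pool.Agent.RB NumberField IsDedekindDomain Module
open scoped nonZeroDivisors Real Classical IsMulCommutative

theorem VWX : VWX_stmt := by
  intro K _ _ c V W T E hVW
  have h1 : dM c V T ⊓ (DV c V ⊓ E) = dM c W T ⊓ (DV c V ⊓ E) := by
    refine le_antisymm ?_ ?_
    · rintro D ⟨⟨x, hx, hD⟩, h2⟩
      exact ⟨⟨x, ⟨hx.1, fun P hP => hx.2.1 P (fun h => hP (hVW h)), hx.2.2⟩, hD⟩, h2⟩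
    · rintro D ⟨⟨x, hx, hD⟩, h2⟩
      refine ⟨⟨x, ⟨hx.1, fun P hP => ?_, hx.2.2⟩, hD⟩, h2⟩
      rw [← hD P]
      exact h2.1.1 P hP
  have h2 : (dM c V T).relIndex (DV c V ⊓ E) = (dM c W T).relIndex (DV c V ⊓ E) := by
    rw [← AddSubgroup.inf_relIndex_right, h1, AddSubgroup.inf_relIndex_right]
  rw [h2]
  refine IDA_dvd_add _ _ _ ?_
  rintro D ⟨h3, h4⟩
  exact ⟨⟨fun P hP => h3.1 P (fun h => hP (hVW h)), h3.2⟩, h4⟩

end Pool.Agent.RMX
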